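import Pool.Agent.N556.CQ.Stm

/-!
# `S_RQ` from `S_QUAD` (project CQ of helper556)
-/

set_option autoImplicit false

namespace Pool.Agent.N897.CQ

open MeasureTheory Set Pool.Agent.N556.CQ

/-- one side of the quadrilateral -/
lemma edge (m1 m2 n1 n2 p1 p2 R1 R2 Q1 Q2 x1 x2 hm hn hp : ℝ)
    (e1 : m1 * R1 + m2 * R2 = hm) (e2 : n1 * R1 + n2 * R2 = hn)
    (e3 : n1 * Q1 + n2 * Q2 = hn) (e4 : p1 * Q1 + p2 * Q2 = hp)
    (ex : n1 * x1 + n2 * x2 = hn) (hxm : m1 * x1 + m2 * x2 ≤ hm) (hxp : p1 * x1 + p2 * x2 ≤ hp)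
    (c1 : 0 < m1 * n2 - m2 * n1) (c2 : 0 < n1 * p2 - n2 * p1) :
    ∃ l : ℝ, 0 ≤ l ∧ Q1 - R1 = -(l * n2) ∧ Q2 - R2 = l * n1 := by
  have hD : 0 < n1 ^ 2 + n2 ^ 2 := by
    rcases eq_or_ne n1 0 with h1 | h1
    · rcases eq_or_ne n2 0 with h2 | h2
      · exfalso
        rw [h1, h2] at c1
        simp at c1
      · positivity
    · positivity
  obtain ⟨u, hu⟩ : ∃ u : ℝ, u = ((x2 - R2) * n1 - (x1 - R1) * n2) / (n1 ^ 2 + n2 ^ 2) := ⟨_, rfl⟩
  obtain ⟨w, hw⟩ : ∃ w : ℝ, w = ((Q2 - x2) * n1 - (Q1 - x1) * n2) / (n1 ^ 2 + n2 ^ 2) := ⟨_, rfl⟩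
  have hu' : u * (n1 ^ 2 + n2 ^ 2) = (x2 - R2) * n1 - (x1 - R1) * n2 := by
    rw [hu]; field_simp
  have hw' : w * (n1 ^ 2 + n2 ^ 2) = (Q2 - x2) * n1 - (Q1 - x1) * n2 := by
    rw [hw]; field_simp
  have u1 : x1 - R1 = -(u * n2) := by
    have : (x1 - R1 + u * n2) * (n1 ^ 2 + n2 ^ 2) = 0 := by
      have : (x1 - R1 + u * n2) * (n1 ^ 2 + n2 ^ 2) =
        (x1 - R1) * (n1 ^ 2 + n2 ^ 2) + n2 * (u * (n1 ^ 2 + n2 ^ 2)) := by ring
      rw [this, hu']
      linear_combination n1 * ex - n1 * e2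
    rcases mul_eq_zero.1 this with h | h
    · linarith
    · exact absurd h hD.ne'
  have u2 : x2 - R2 = u * n1 := by
    have : (x2 - R2 - u * n1) * (n1 ^ 2 + n2 ^ 2) = 0 := by
      have : (x2 - R2 - u * n1) * (n1 ^ 2 + n2 ^ 2) =
        (x2 - R2) * (n1 ^ 2 + n2 ^ 2) - n1 * (u * (n1 ^ 2 + n2 ^ 2)) := by ring
      rw [this, hu']
      linear_combination n2 * ex - n2 * e2
    rcases mul_eq_zero.1 this with h | h
    · linarith
    · exact absurd h hD.ne'
  have w1 : Q1 - x1 = -(w * n2) := by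
    have : (Q1 - x1 + w * n2) * (n1 ^ 2 + n2 ^ 2) = 0 := by
      have : (Q1 - x1 + w * n2) * (n1 ^ 2 + n2 ^ 2) =
        (Q1 - x1) * (n1 ^ 2 + n2 ^ 2) + n2 * (w * (n1 ^ 2 + n2 ^ 2)) := by ring
      rw [this, hw']
      linear_combination n1 * e3 - n1 * ex
    rcases mul_eq_zero.1 this with h | h
    · linarith
    · exact absurd h hD.ne'
  have w2 : Q2 - x2 = w * n1 := by
    have : (Q2 - x2 - w * n1) * (n1 ^ 2 + n2 ^ 2) = 0 := by
      have : (Q2 - x2 - w * n1) * (n1 ^ 2 + n2 ^ 2) =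
        (Q2 - x2) * (n1 ^ 2 + n2 ^ 2) - n1 * (w * (n1 ^ 2 + n2 ^ 2)) := by ring
      rw [this, hw']
      linear_combination n2 * e3 - n2 * ex
    rcases mul_eq_zero.1 this with h | h
    · linarith
    · exact absurd h hD.ne'
  have hu0 : 0 ≤ u := by
    have h1 : -(u * (m1 * n2 - m2 * n1)) = m1 * (x1 - R1) + m2 * (x2 - R2) := by
      rw [u1, u2]; ring
    have h2 : m1 * (x1 - R1) + m2 * (x2 - R2) ≤ 0 := by linarith
    have h3 : 0 ≤ u * (m1 * n2 - m2 * n1) := by linarith
    exact nonneg_of_mul_nonneg_left h3 c1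
  have hw0 : 0 ≤ w := by
    have h1 : w * (n1 * p2 - n2 * p1) = p1 * (Q1 - x1) + p2 * (Q2 - x2) := by
      rw [w1, w2]; ring
    have h2 : 0 ≤ p1 * (Q1 - x1) + p2 * (Q2 - x2) := by linarith
    have h3 : 0 ≤ w * (n1 * p2 - n2 * p1) := by linarith
    exact nonneg_of_mul_nonneg_left h3 c2
  refine ⟨u + w, by linarith, ?_, ?_⟩
  · linarith
  · linarith

theorem rq (hQ : S_QUAD) : S_RQ := by
  intro K a b s₁ s₂ s₃ s₄ ha hb hs1 hs2 hs3 hs4 k1 k2 k3 k4 t1 t2 t3 t4
  obtain ⟨ha1, ha2⟩ := abs_lt.1 ha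
  obtain ⟨hb1, hb2⟩ := abs_lt.1 hb
  have pa : 0 < 1 + a := by linarith
  have ma : 0 < 1 - a := by linarith
  have pb : 0 < 1 + b := by linarith
  have mb : 0 < 1 - b := by linarith
  have pa' := pa.ne'
  have ma' := ma.ne'
  have pb' := pb.ne'
  have mb' := mb.ne'
  obtain ⟨x1, hx1, e1⟩ := t1
  obtain ⟨x2, hx2, e2⟩ := t2
  obtain ⟨x3, hx3, e3⟩ := t3
  obtain ⟨x4, hx4, e4⟩ := t4
  -- vertices
  obtain ⟨x41, hx41⟩ : ∃ y : ℝ, y = 1 + (s₁ + s₄) / 2 := ⟨_, rfl⟩
  obtain ⟨y41, hy41⟩ : ∃ y : ℝ, y = a + ((1 + a) * s₁ - (1 - a) * s₄) / (2 * (1 - b)) := ⟨_, rfl⟩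
  obtain ⟨x12, hx12⟩ : ∃ y : ℝ, y = b + ((1 + b) * s₁ - (1 - b) * s₂) / (2 * (1 - a)) := ⟨_, rfl⟩
  obtain ⟨y12, hy12⟩ : ∃ y : ℝ, y = 1 + (s₁ + s₂) / 2 := ⟨_, rfl⟩
  obtain ⟨x23, hx23⟩ : ∃ y : ℝ, y = -1 - (s₂ + s₃) / 2 := ⟨_, rfl⟩
  obtain ⟨y23, hy23⟩ : ∃ y : ℝ, y = a + ((1 + a) * s₂ - (1 - a) * s₃) / (2 * (1 + b)) := ⟨_, rfl⟩
  obtain ⟨x34, hx34⟩ : ∃ y : ℝ, y = b + ((1 + b) * s₄ - (1 - b) * s₃) / (2 * (1 + a)) := ⟨_, rfl⟩
  obtain ⟨y34, hy34⟩ : ∃ y : ℝ, y = -1 - (s₃ + s₄) / 2 := ⟨_, rfl⟩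
  -- incidences
  have i41a : (1 - a) * x41 + (1 - b) * y41 = 1 - a * b + s₁ := by
    rw [hx41, hy41]; field_simp; ring
  have i41b : (1 + a) * x41 + (-(1 - b)) * y41 = 1 + a * b + s₄ := by
    rw [hx41, hy41]; field_simp; ring
  have i12a : (1 - a) * x12 + (1 - b) * y12 = 1 - a * b + s₁ := by
    rw [hx12, hy12]; field_simp; ring
  have i12b : (-(1 - a)) * x12 + (1 + b) * y12 = 1 + a * b + s₂ := by
    rw [hx12, hy12]; field_simp; ring
  have i23a : (-(1 - a)) * x23 + (1 + b) * y23 = 1 + a * b + s₂ := by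
    rw [hx23, hy23]; field_simp; ring
  have i23b : (-(1 + a)) * x23 + (-(1 + b)) * y23 = 1 - a * b + s₃ := by
    rw [hx23, hy23]; field_simp; ring
  have i34a : (-(1 + a)) * x34 + (-(1 + b)) * y34 = 1 - a * b + s₃ := by
    rw [hx34, hy34]; field_simp; ring
  have i34b : (1 + a) * x34 + (-(1 - b)) * y34 = 1 + a * b + s₄ := by
    rw [hx34, hy34]; field_simp; ring
  -- crosses of the normals
  have c41 : 0 < (1 + a) * (1 - b) - (-(1 - b)) * (1 - a) := by
    have : (1 + a) * (1 - b) - (-(1 - b)) * (1 - a) = 2 * (1 - b) := by ring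
    rw [this]; linarith
  have c12 : 0 < (1 - a) * (1 + b) - (1 - b) * (-(1 - a)) := by
    have : (1 - a) * (1 + b) - (1 - b) * (-(1 - a)) = 2 * (1 - a) := by ring
    rw [this]; linarith
  have c23 : 0 < (-(1 - a)) * (-(1 + b)) - (1 + b) * (-(1 + a)) := by
    have : (-(1 - a)) * (-(1 + b)) - (1 + b) * (-(1 + a)) = 2 * (1 + b) := by ring
    rw [this]; linarith
  have c34 : 0 < (-(1 + a)) * (-(1 - b)) - (-(1 + b)) * (1 + a) := by
    have : (-(1 + a)) * (-(1 - b)) - (-(1 + b)) * (1 + a) = 2 * (1 + a) := by ring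
    rw [this]; linarith
  -- sides
  obtain ⟨l1, l1n, l1x, l1y⟩ := edge (1 + a) (-(1 - b)) (1 - a) (1 - b) (-(1 - a)) (1 + b)
    x41 y41 x12 y12 x1.1 x1.2 (1 + a * b + s₄) (1 - a * b + s₁) (1 + a * b + s₂)
    i41b i41a i12a i12b e1 (by have := k4 x1 hx1; linarith) (k2 x1 hx1) c41 c12
  obtain ⟨l2, l2n, l2x, l2y⟩ := edge (1 - a) (1 - b) (-(1 - a)) (1 + b) (-(1 + a)) (-(1 + b))
    x12 y12 x23 y23 x2.1 x2.2 (1 - a * b + s₁) (1 + a * b + s₂) (1 - a * b + s₃)
    i12a i12b i23a i23b e2 (k1 x2 hx2) (by have := k3 x2 hx2; linarith) c12 c23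
  obtain ⟨l3, l3n, l3x, l3y⟩ := edge (-(1 - a)) (1 + b) (-(1 + a)) (-(1 + b)) (1 + a) (-(1 - b))
    x23 y23 x34 y34 x3.1 x3.2 (1 + a * b + s₂) (1 - a * b + s₃) (1 + a * b + s₄)
    i23a i23b i34a i34b (by linarith) (k2 x3 hx3) (by have := k4 x3 hx3; linarith) c23 c34
  obtain ⟨l4, l4n, l4x, l4y⟩ := edge (-(1 + a)) (-(1 + b)) (1 + a) (-(1 - b)) (1 - a) (1 - b)
    x34 y34 x41 y41 x4.1 x4.2 (1 - a * b + s₃) (1 + a * b + s₄) (1 - a * b + s₁)
    i34a i34b i41b i41a (by linarith) (by have := k3 x4 hx4; linarith) (k1 x4 hx4) c34 c41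
  -- orientations
  have o1 : cr ((x12, y12) - (x41, y41)) ((x23, y23) - (x41, y41)) = l1 * l2 * (2 * (1 - a)) := by
    have hx : x23 - x41 = (x12 - x41) + (x23 - x12) := by ring
    have hy : y23 - y41 = (y12 - y41) + (y23 - y12) := by ring
    simp only [cr, Prod.mk_sub_mk]
    rw [hx, hy, l1x, l1y, l2x, l2y]; ring
  have o2 : cr ((x23, y23) - (x41, y41)) ((x34, y34) - (x41, y41)) = l3 * l4 * (2 * (1 + a)) := by
    have hx : x23 - x41 = -((x34 - x23) + (x41 - x34)) := by ring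
    have hy : y23 - y41 = -((y34 - y23) + (y41 - y34)) := by ring
    have hx' : x34 - x41 = -(x41 - x34) := by ring
    have hy' : y34 - y41 = -(y41 - y34) := by ring
    simp only [cr, Prod.mk_sub_mk]
    rw [hx, hy, hx', hy', l3x, l3y, l4x, l4y]; ring
  have o3 : cr ((x12, y12) - (x41, y41)) ((x34, y34) - (x41, y41)) = l4 * l1 * (2 * (1 - b)) := by
    have hx' : x34 - x41 = -(x41 - x34) := by ring
    have hy' : y34 - y41 = -(y41 - y34) := by ring
    simp only [cr, Prod.mk_sub_mk]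
    rw [hx', hy', l1x, l1y, l4x, l4y]; ring
  have o4 : cr ((x23, y23) - (x12, y12)) ((x34, y34) - (x12, y12)) = l2 * l3 * (2 * (1 + b)) := by
    have hx' : x34 - x12 = (x23 - x12) + (x34 - x23) := by ring
    have hy' : y34 - y12 = (y23 - y12) + (y34 - y23) := by ring
    simp only [cr, Prod.mk_sub_mk]
    rw [hx', hy', l2x, l2y, l3x, l3y]; ring
  have o5 : cr ((x23, y23) - (x41, y41)) ((x34, y34) - (x12, y12)) =
      l1 * l2 * (2 * (1 - a)) + l3 * l4 * (2 * (1 + a)) := by
    rw [← o1, ← o2]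
    simp only [cr, Prod.mk_sub_mk]
    ring
  have hab : |a * b| < 1 := by
    rw [abs_mul]
    exact mul_lt_one_of_nonneg_of_lt_one_left (abs_nonneg a) ha hb.le
  obtain ⟨hab1, hab2⟩ := abs_lt.1 hab
  have P12 : 0 ≤ l1 * l2 := mul_nonneg l1n l2n
  have P34 : 0 ≤ l3 * l4 := mul_nonneg l3n l4n
  have P41 : 0 ≤ l4 * l1 := mul_nonneg l4n l1n
  have P23 : 0 ≤ l2 * l3 := mul_nonneg l2n l3n
  have g1 : 1 ≤ x41 := by rw [hx41]; linarith
  have g2 : 1 ≤ y12 := by rw [hy12]; linarith
  have g3 : x23 ≤ -1 := by rw [hx23]; linarith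
  have g4 : y34 ≤ -1 := by rw [hy34]; linarith
  have pos : 0 < l1 * l2 * (2 * (1 - a)) + l3 * l4 * (2 * (1 + a)) := by
    by_contra hcon
    rw [not_lt] at hcon
    have A1 : 0 ≤ l1 * l2 * (2 * (1 - a)) := mul_nonneg P12 (by linarith)
    have A2 : 0 ≤ l3 * l4 * (2 * (1 + a)) := mul_nonneg P34 (by linarith)
    have B1 : l1 * l2 * (2 * (1 - a)) = 0 := by linarith
    have B2 : l3 * l4 * (2 * (1 + a)) = 0 := by linarith
    have C1 : l1 * l2 = 0 := by
      rcases mul_eq_zero.1 B1 with h | h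
      · exact h
      · exfalso; linarith
    have C2 : l3 * l4 = 0 := by
      rcases mul_eq_zero.1 B2 with h | h
      · exact h
      · exfalso; linarith
    rcases mul_eq_zero.1 C1 with h1 | h2
    · rcases mul_eq_zero.1 C2 with h3 | h4
      · -- l1 = l3 = 0
        rw [h1] at l1x l1y
        rw [h3] at l3x l3y
        have q1 : x12 = x41 := by linarith
        have q2 : y12 = y41 := by linarith
        have q3 : x34 = x23 := by linarith
        have q4 : y34 = y23 := by linarith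
        rw [q1] at l2x
        rw [q2] at l2y
        rw [q3] at l4x
        rw [q4] at l4y
        have r1 : l2 * (1 + b) = l4 * (1 - b) := by linarith
        have r2 : l2 * (1 - a) = l4 * (1 + a) := by linarith
        have l2p : 0 < l2 := by
          rcases l2n.lt_or_eq with h | h
          · exact h
          · exfalso
            rw [← h] at l2x
            linarith
        have hz : l2 * (a + b) = 0 := by linear_combination ((1 + a) * r1 - (1 - b) * r2) / 2
        have hba : b = -a := by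
          rcases mul_eq_zero.1 hz with h | h
          · exact absurd h l2p.ne'
          · linarith
        have w1 : 0 < (1 - a) * (y41 - x41) := by
          rw [q1, q2] at i12b
          have : (1 - a) * (y41 - x41) = -(1 - a) * x41 + (1 + b) * y41 - (a + b) * y41 := by ring
          rw [this, i12b, hba]
          have : (a + -a) * y41 = 0 := by ring
          rw [this, ← hba]
          linarith
        have w2 : 0 < (1 + a) * (x41 - y41) := by
          have : (1 + a) * (x41 - y41) = (1 + a) * x41 + -(1 - b) * y41 - (a + b) * y41 := by ring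
          rw [this, i41b, hba]
          have : (a + -a) * y41 = 0 := by ring
          rw [this, ← hba]
          linarith
        have v1 : 0 < y41 - x41 := (mul_pos_iff_of_pos_left ma).1 w1
        have v2 : 0 < x41 - y41 := (mul_pos_iff_of_pos_left pa).1 w2
        linarith
      · -- l1 = l4 = 0
        rw [h1] at l1y
        rw [h4] at l4y
        linarith
    · rcases mul_eq_zero.1 C2 with h3 | h4
      · rw [h2] at l2y
        rw [h3] at l3y
        linarith
      · -- l2 = l4 = 0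
        rw [h2] at l2x l2y
        rw [h4] at l4x l4y
        have q1 : x23 = x12 := by linarith
        have q2 : y23 = y12 := by linarith
        have q3 : x34 = x41 := by linarith
        have q4 : y34 = y41 := by linarith
        rw [q1, q3] at l3x
        rw [q2, q4] at l3y
        have r1 : l1 * (1 - b) = l3 * (1 + b) := by linarith
        have r2 : l1 * (1 - a) = l3 * (1 + a) := by linarith
        have l1p : 0 < l1 := by
          rcases l1n.lt_or_eq with h | h
          · exact h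
          · exfalso
            rw [← h] at l1y
            linarith
        have hz : l1 * (a - b) = 0 := by linear_combination ((1 + a) * r1 - (1 + b) * r2) / 2
        have hba : b = a := by
          rcases mul_eq_zero.1 hz with h | h
          · exact absurd h l1p.ne'
          · linarith
        have w1 : 0 < (1 - a) * (x12 + y12) := by
          have : (1 - a) * (x12 + y12) = (1 - a) * x12 + (1 - b) * y12 - (a - b) * y12 := by ring
          rw [this, i12a, hba]
          have : (a - a) * y12 = 0 := by ring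
          rw [this]
          rw [hba] at hab2
          linarith
        have w2 : 0 < (1 + a) * (-(x12 + y12)) := by
          rw [q1, q2] at i23b
          have : (1 + a) * (-(x12 + y12)) = -(1 + a) * x12 + -(1 + b) * y12 - (a - b) * y12 := by
            ring
          rw [this, i23b, hba]
          have : (a - a) * y12 = 0 := by ring
          rw [this]
          rw [hba] at hab2
          linarith
        have v1 : 0 < x12 + y12 := (mul_pos_iff_of_pos_left ma).1 w1
        have v2 : 0 < -(x12 + y12) := (mul_pos_iff_of_pos_left pa).1 w2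
        linarith
  have fin := hQ (x41, y41) (x12, y12) (x23, y23) (x34, y34)
    (by rw [o1]; exact mul_nonneg P12 (by linarith))
    (by rw [o2]; exact mul_nonneg P34 (by linarith))
    (by rw [o3]; exact mul_nonneg P41 (by linarith))
    (by rw [o4]; exact mul_nonneg P23 (by linarith))
    (by rw [o5]; exact pos)
  refine ⟨(x41, y41), (x12, y12), (x23, y23), (x34, y34), ?_, ?_⟩
  · intro x hx
    have z1 := k1 x hx
    have z2 := k2 x hx
    have z3 := k3 x hx
    have z4 := k4 x hx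
    refine fin.2 x ?_ ?_ ?_ ?_
    · have : cr ((x12, y12) - (x41, y41)) (x - (x41, y41)) =
          l1 * (1 - a * b + s₁ - ((1 - a) * x.1 + (1 - b) * x.2)) := by
        simp only [cr, Prod.fst_sub, Prod.snd_sub]
        rw [l1x, l1y]
        linear_combination l1 * i41a
      rw [this]
      exact mul_nonneg l1n (by linarith)
    · have : cr ((x23, y23) - (x12, y12)) (x - (x12, y12)) =
          l2 * (1 + a * b + s₂ - (-(1 - a) * x.1 + (1 + b) * x.2)) := by
        simp only [cr, Prod.fst_sub, Prod.snd_sub]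
        rw [l2x, l2y]
        linear_combination l2 * i12b
      rw [this]
      exact mul_nonneg l2n (by linarith)
    · have : cr ((x34, y34) - (x23, y23)) (x - (x23, y23)) =
          l3 * (1 - a * b + s₃ - (-(1 + a) * x.1 - (1 + b) * x.2)) := by
        simp only [cr, Prod.fst_sub, Prod.snd_sub]
        rw [l3x, l3y]
        linear_combination l3 * i23b
      rw [this]
      exact mul_nonneg l3n (by linarith)
    · have : cr ((x41, y41) - (x34, y34)) (x - (x34, y34)) =
          l4 * (1 + a * b + s₄ - ((1 + a) * x.1 - (1 - b) * x.2)) := by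
        simp only [cr, Prod.fst_sub, Prod.snd_sub]
        rw [l4x, l4y]
        linear_combination l4 * i34b
      rw [this]
      exact mul_nonneg l4n (by linarith)
  · refine le_trans fin.1 (le_of_eq ?_)
    congr 1
    congr 1
    have da : (1 - a ^ 2) ≠ 0 := by
      have : (1 - a ^ 2) = (1 - a) * (1 + a) := by ring
      rw [this]; exact mul_ne_zero ma' pa'
    have db : (1 - b ^ 2) ≠ 0 := by
      have : (1 - b ^ 2) = (1 - b) * (1 + b) := by ring
      rw [this]; exact mul_ne_zero mb' pb'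
    have yy : y23 - y41 = -((1 + a) * (1 + b) * s₁ - (1 + a) * (1 - b) * s₂ +
        (1 - a) * (1 - b) * s₃ - (1 - a) * (1 + b) * s₄) / (2 * (1 - b ^ 2)) := by
      rw [hy23, hy41, eq_div_iff (by positivity)]
      have : (1 - b ^ 2) = (1 - b) * (1 + b) := by ring
      rw [this]
      field_simp
      ring
    have xx : x34 - x12 = -((1 + a) * (1 + b) * s₁ - (1 + a) * (1 - b) * s₂ +
        (1 - a) * (1 - b) * s₃ - (1 - a) * (1 + b) * s₄) / (2 * (1 - a ^ 2)) := by
      rw [hx34, hx12, eq_div_iff (by positivity)]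
      have : (1 - a ^ 2) = (1 - a) * (1 + a) := by ring
      rw [this]
      field_simp
      ring
    have x' : x23 - x41 = -(2 + (s₁ + s₂ + s₃ + s₄) / 2) := by rw [hx23, hx41]; ring
    have y' : y34 - y12 = -(2 + (s₁ + s₂ + s₃ + s₄) / 2) := by rw [hy34, hy12]; ring
    simp only [cr, Prod.mk_sub_mk]
    rw [yy, xx, x', y']
    field_simp
    ring

end Pool.Agent.N897.CQ
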